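import Pool.Agent.K1H62.IV.Stm

/-! Piece IE of project IV (for helper62). -/

set_option autoImplicit false

namespace Pool.Agent.K1H33.IV

open Pool.Agent.K1H62.IV
open Pool.Agent.W878.VC (Mdl Prm SPO SLO)

theorem pair_triv (h : (({0, 1} : Set ℕ).Subsingleton ∨ ({0, 1} : Set ℕ) = Set.univ)) : False := by
  rcases h with h | h
  · exact absurd (h (Or.inl rfl) (Or.inr rfl)) (by decide)
  · have : (2 : ℕ) ∈ ({0, 1} : Set ℕ) := by rw [h]; exact Set.mem_univ 2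
    rcases this with h | h
    · exact absurd h (by decide)
    · exact absurd h (by decide)

theorem t_IE : S_IE := by
  refine ⟨?_, ?_⟩
  · intro A _ hP
    have h2 : ∃ u v, Co A u v := by
      by_contra h
      push Not at h
      have h3 : ∀ u v, u ≠ v → A u v := by
        intro u v huv
        by_contra hA
        exact h u v ⟨huv, hA⟩
      refine pair_triv (hP _ fun u hu v hv w hw => ?_)
      have e1 : u ≠ w := fun e => hw (e ▸ hu)
      have e2 : v ≠ w := fun e => hw (e ▸ hv)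
      exact ⟨⟨fun _ => h3 _ _ e2, fun _ => h3 _ _ e1⟩,
        ⟨fun _ => h3 _ _ e2.symm, fun _ => h3 _ _ e1.symm⟩⟩
    obtain ⟨c, d, hcd⟩ := h2
    exact ⟨![c, d], hcd⟩
  · intro r e he _ hP X hX
    refine hP X fun u hu v hv w hw => ?_
    have e1 : e u ≠ e w := fun h => hw (he h ▸ hu)
    have e2 : e v ≠ e w := fun h => hw (he h ▸ hv)
    obtain ⟨h1, h2⟩ := hX u hu v hv w hw
    have h1' : r (e u) (e w) ↔ r (e v) (e w) := h1
    have h2' : r (e w) (e u) ↔ r (e w) (e v) := h2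
    refine ⟨?_, ?_⟩
    · show (e u ≠ e w ∧ ¬ r (e u) (e w) ∧ ¬ r (e w) (e u)) ↔
        (e v ≠ e w ∧ ¬ r (e v) (e w) ∧ ¬ r (e w) (e v))
      rw [h1', h2']
      exact ⟨fun h => ⟨e2, h.2⟩, fun h => ⟨e1, h.2⟩⟩
    · show (e w ≠ e u ∧ ¬ r (e w) (e u) ∧ ¬ r (e u) (e w)) ↔
        (e w ≠ e v ∧ ¬ r (e w) (e v) ∧ ¬ r (e v) (e w))
      rw [h1', h2']
      exact ⟨fun h => ⟨e2.symm, h.2⟩, fun h => ⟨e1.symm, h.2⟩⟩

end Pool.Agent.K1H33.IV
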